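import Pool.Agent.Lib.MP_9f0d12_co.Main

namespace Pool.Agent.Results.MP_9f0d12_co.Full

open Pool.Agent.Lib.MP_9f0d12_co

/-- For every `d ≥ 1` and all large `n` there is a norm on `ℝ^d` in which the least number of
distinct distances spanned by `n` points is exactly `n - 1`. -/
theorem result : ∀ d : ℕ, 0 < d → ∃ n₀ : ℕ, ∀ n : ℕ, n₀ ≤ n →
    ∃ N : Seminorm ℝ (Fin d → ℝ), (∀ x, N x = 0 → x = 0) ∧
      IsLeast {k : ℕ | ∃ P : Finset (Fin d → ℝ), P.card = n ∧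
        k = {r : ℝ | ∃ x ∈ P, ∃ y ∈ P, x ≠ y ∧ r = N (x - y)}.ncard} (n - 1) := by
  intro d hd
  refine ⟨thr d, fun n hn => ?_⟩
  obtain ⟨N, hN0, hI⟩ := exists_norm d (d * n)
  have hN1 : ∀ (c : ℝ) x, N (c • x) = |c| * N x := fun c x => by
    rw [map_smul_eq_mul, Real.norm_eq_abs]
  have hlow : ∀ P : Finset (Fin d → ℝ), P.card = n →
      n - 1 ≤ {r : ℝ | ∃ x ∈ P, ∃ y ∈ P, x ≠ y ∧ r = N (x - y)}.ncard := by
    rintro P rfl
    exact lower hN1 hN0 hd hI hn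
  refine ⟨N, hN0, ?_, ?_⟩
  · obtain ⟨P, hP, h⟩ := upper hN1 hd n
    exact ⟨P, hP, le_antisymm (hlow P hP) h⟩
  · rintro k ⟨P, hP, rfl⟩
    exact hlow P hP

end Pool.Agent.Results.MP_9f0d12_co.Full
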